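import Pool.Agent.L7h27.CM.Stm
import Pool.Agent.H469R2.NK.KL

set_option autoImplicit false

/-!
# Project CM27, part K2 (helper23): the second derivative test
-/

namespace Pool.Agent.L7h23.CM27

open Finset
open Pool.Agent.H469R2.NK (e norm_e e_add conj_e e_zero norm_sum_neg kusmin_landau_mono)
open Pool.Agent.L7h72.HB (ex)
open Pool.Agent.L7h27.CM (KT S_K2)

theorem ex_eq (x : ℝ) : ex x = e x := rfl

lemma e_int (m : ℤ) : e (m : ℝ) = 1 := by
  unfold e
  rw [Complex.exp_eq_one_iff]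
  exact ⟨m, by push_cast; ring⟩

/-- the number of the `n < L` with `d n < α` -/
noncomputable def P (d : ℕ → ℝ) (L : ℕ) (α : ℝ) : ℕ := by
  classical exact ((range L).filter fun n => d n < α).card

lemma P_le (d : ℕ → ℝ) (L : ℕ) (α : ℝ) : P d L α ≤ L := by
  classical
  unfold P
  exact (card_filter_le _ _).trans (card_range L).le

lemma P_mono (d : ℕ → ℝ) (L : ℕ) {α β : ℝ} (h : α ≤ β) : P d L α ≤ P d L β := by
  classical
  unfold P
  apply card_le_card
  intro n hn
  rw [mem_filter] at hn ⊢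
  exact ⟨hn.1, hn.2.trans_le h⟩

lemma P_iff {d : ℕ → ℝ} {L : ℕ} (hd : ∀ m n, m ≤ n → n < L → d m ≤ d n) (α : ℝ) (n : ℕ)
    (hn : n < L) : d n < α ↔ n < P d L α := by
  classical
  unfold P
  constructor
  · intro h
    have h1 : range (n + 1) ⊆ (range L).filter fun n => d n < α := by
      intro m hm
      rw [mem_range] at hm
      rw [mem_filter, mem_range]
      exact ⟨by omega, (hd m n (by omega) hn).trans_lt h⟩
    have h2 := card_le_card h1
    rw [card_range] at h2
    exact h2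
  · intro h
    by_contra hcon
    have h1 : ((range L).filter fun n => d n < α) ⊆ range n := by
      intro m hm
      rw [mem_filter, mem_range] at hm
      rw [mem_range]
      by_contra hmn
      exact hcon ((hd n m (by omega) hm.1).trans_lt hm.2)
    have h2 := card_le_card h1
    rw [card_range] at h2
    exact absurd h (not_lt.2 h2)

/-- the first differences -/
def dif (x : ℕ → ℝ) (n : ℕ) : ℝ := x (n + 1) - x n

section

variable {x : ℕ → ℝ} {L : ℕ} {lam : ℝ}

lemma gap (h1 : ∀ n, n + 1 < L → lam ≤ dif x (n + 1) - dif x n) (m k : ℕ) (hk : m + k < L) :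
    lam * k ≤ dif x (m + k) - dif x m := by
  induction k with
  | zero => simp
  | succ k ih =>
    have h2 := h1 (m + k) (by omega)
    have h3 := ih (by omega)
    rw [show m + (k + 1) = m + k + 1 by ring]
    push_cast
    linarith

lemma gap_le {h : ℝ} (h2 : ∀ n, n + 1 < L → dif x (n + 1) - dif x n ≤ h * lam) (k : ℕ)
    (hk : k < L) : dif x k - dif x 0 ≤ h * lam * k := by
  induction k with
  | zero => simp
  | succ k ih =>
    have h3 := h2 k (by omega)
    have h4 := ih (by omega)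
    push_cast
    linarith

lemma mono (hlam : 0 < lam) (h1 : ∀ n, n + 1 < L → lam ≤ dif x (n + 1) - dif x n) (m n : ℕ)
    (hmn : m ≤ n) (hn : n < L) : dif x m ≤ dif x n := by
  obtain ⟨k, rfl⟩ : ∃ k, n = m + k := ⟨n - m, by omega⟩
  have := gap h1 m k hn
  have h2 : 0 ≤ lam * (k : ℝ) := by positivity
  linarith

/-- the points with a difference close to an integer -/
lemma block_bad (hlam : 0 < lam) (h1 : ∀ n, n + 1 < L → lam ≤ dif x (n + 1) - dif x n)
    (α β : ℝ) (hαβ : α ≤ β) :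
    ‖∑ n ∈ Ico (P (dif x) L α) (P (dif x) L β), e (x n)‖ ≤ (β - α) / lam + 1 := by
  set p := P (dif x) L α with hp
  set q := P (dif x) L β with hq
  have h3 : ‖∑ n ∈ Ico p q, e (x n)‖ ≤ ((q - p : ℕ) : ℝ) := by
    refine (norm_sum_le _ _).trans ?_
    simp only [norm_e, sum_const, Nat.card_Ico, nsmul_eq_mul, mul_one]
    exact le_rfl
  refine h3.trans ?_
  rcases Nat.lt_or_ge p q with hpq | hpq
  · have hqL : q ≤ L := P_le _ _ _
    obtain ⟨k, hk⟩ : ∃ k, q = p + k + 1 := ⟨q - p - 1, by omega⟩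
    have h4 : dif x (p + k) < β := (P_iff (mono hlam h1) β (p + k) (by omega)).2 (by omega)
    have h5 : α ≤ dif x p := by
      by_contra hcon
      push Not at hcon
      have := (P_iff (mono hlam h1) α p (by omega)).1 hcon
      omega
    have h6 := gap h1 p k (by omega)
    have h7 : ((q - p : ℕ) : ℝ) = k + 1 := by
      rw [show q - p = k + 1 by omega]
      push_cast
      ring
    rw [h7]
    have h8 : (k : ℝ) ≤ (β - α) / lam := by
      rw [le_div_iff₀ hlam]
      linarith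
    linarith
  · rw [Nat.sub_eq_zero_of_le hpq]
    have : 0 ≤ (β - α) / lam := div_nonneg (by linarith) hlam.le
    simp only [Nat.cast_zero]
    linarith

/-- the points with differences far from the integers -/
lemma block_good (hlam : 0 < lam) (h1 : ∀ n, n + 1 < L → lam ≤ dif x (n + 1) - dif x n)
    {δ : ℝ} (hδ : 0 < δ) (ν : ℤ) :
    ‖∑ n ∈ Ico (P (dif x) L (ν + δ)) (P (dif x) L (ν + 1 - δ)), e (x n)‖ ≤ 2 / δ := by
  set p := P (dif x) L (ν + δ) with hp
  set q := P (dif x) L (ν + 1 - δ) with hq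
  have hqL : q ≤ L := P_le _ _ _
  have hin : ∀ k, k < q - p → (ν : ℝ) + δ ≤ dif x (p + k) ∧ dif x (p + k) < ν + 1 - δ := by
    intro k hk
    constructor
    · by_contra hcon
      push Not at hcon
      have := (P_iff (mono hlam h1) _ (p + k) (by omega)).1 hcon
      omega
    · exact (P_iff (mono hlam h1) _ (p + k) (by omega)).2 (by omega)
  let y : ℕ → ℝ := fun k => x (p + k) - ((ν * ((p + k : ℕ) : ℤ) : ℤ) : ℝ)
  have hy : ∀ k, y (k + 1) - y k = dif x (p + k) - ν := by
    intro k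
    simp only [y, dif]
    rw [show p + (k + 1) = p + k + 1 by ring]
    push_cast
    ring
  have h3 := kusmin_landau_mono y (q - p) hδ
    (fun n hn => by rw [hy]; linarith [(hin n hn).1])
    (fun n hn => by rw [hy]; linarith [(hin n hn).2])
    (fun n hn => by
      rw [show n + 2 = n + 1 + 1 by ring, hy, hy]
      have := mono hlam h1 (p + n) (p + (n + 1)) (by omega) (by omega)
      linarith)
  rw [sum_Ico_eq_sum_range]
  have h4 : ∀ k, e (x (p + k)) = e (y k) := by
    intro k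
    have : x (p + k) = y k + ((ν * ((p + k : ℕ) : ℤ) : ℤ) : ℝ) := by
      simp only [y]
      ring
    rw [this, e_add, e_int, mul_one]
  simp only [h4]
  exact h3

theorem disc {h : ℝ} (hlam : 0 < lam) (hlam2 : lam ≤ 1 / 16) (hh : 1 ≤ h)
    (h1 : ∀ n, n + 1 < L → lam ≤ dif x (n + 1) - dif x n)
    (h2 : ∀ n, n + 1 < L → dif x (n + 1) - dif x n ≤ h * lam) :
    ‖∑ n ∈ range L, e (x n)‖ ≤ (h * lam * L + 2) * (5 / √lam) := by
  set δ := √lam with hδd
  have hδ : 0 < δ := Real.sqrt_pos.2 hlam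
  have hδ2 : δ ^ 2 = lam := Real.sq_sqrt hlam.le
  have hδ4 : δ ≤ 1 / 4 := by
    rw [hδd]
    exact Real.sqrt_le_iff.2 ⟨by norm_num, by linarith⟩
  rcases Nat.eq_zero_or_pos L with rfl | hL
  · simp only [range_zero, sum_empty, norm_zero]
    positivity
  set ν₀ : ℤ := ⌊dif x 0 + δ⌋ with hν₀
  have hν1 : (ν₀ : ℝ) ≤ dif x 0 + δ := Int.floor_le _
  have hν2 : dif x 0 + δ < ν₀ + 1 := Int.lt_floor_add_one _
  let Q : ℕ → ℕ := fun j => P (dif x) L (ν₀ + j - δ)
  have hQ0 : Q 0 = 0 := by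
    by_contra hcon
    have h3 : 0 < P (dif x) L (ν₀ + (0 : ℕ) - δ) := Nat.pos_of_ne_zero hcon
    have h4 := (P_iff (mono hlam h1) _ 0 hL).2 h3
    push_cast at h4
    linarith
  have hblock : ∀ j, Q j ≤ Q (j + 1) ∧ ‖∑ n ∈ Ico (Q j) (Q (j + 1)), e (x n)‖ ≤ 5 / δ := by
    intro j
    have a1 : (ν₀ : ℝ) + j - δ ≤ ((ν₀ + j : ℤ) : ℝ) + δ := by push_cast; linarith
    have a2 : ((ν₀ + j : ℤ) : ℝ) + δ ≤ ν₀ + ((j + 1 : ℕ) : ℝ) - δ := by push_cast; linarith
    have b1 : P (dif x) L (ν₀ + j - δ) ≤ P (dif x) L (((ν₀ + j : ℤ) : ℝ) + δ) := P_mono _ _ a1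
    have b2 : P (dif x) L (((ν₀ + j : ℤ) : ℝ) + δ) ≤ P (dif x) L (ν₀ + ((j + 1 : ℕ) : ℝ) - δ) :=
      P_mono _ _ a2
    refine ⟨b1.trans b2, ?_⟩
    have c1 := block_bad hlam h1 (ν₀ + j - δ) (((ν₀ + j : ℤ) : ℝ) + δ) a1
    have c2 := block_good hlam h1 hδ (ν₀ + j)
    have e1 : (((ν₀ + j : ℤ) : ℝ) + 1 - δ) = ν₀ + ((j + 1 : ℕ) : ℝ) - δ := by push_cast; ring
    rw [e1] at c2
    show ‖∑ n ∈ Ico (P (dif x) L (ν₀ + j - δ)) (P (dif x) L (ν₀ + ((j + 1 : ℕ) : ℝ) - δ)), e (x n)‖ ≤ _
    rw [← sum_Ico_consecutive _ b1 b2]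
    refine (norm_add_le _ _).trans ?_
    have e2 : (((ν₀ + j : ℤ) : ℝ) + δ - (ν₀ + j - δ)) / lam = 2 / δ := by
      push_cast
      rw [← hδ2]
      field_simp
      ring
    rw [e2] at c1
    have e3 : (1 : ℝ) ≤ 1 / δ := by
      rw [le_div_iff₀ hδ]
      linarith
    calc _ ≤ (2 / δ + 1) + 2 / δ := add_le_add c1 c2
      _ ≤ (2 / δ + 1 / δ) + 2 / δ := by linarith
      _ = 5 / δ := by ring
  have hind : ∀ j : ℕ, ‖∑ n ∈ range (Q j), e (x n)‖ ≤ j * (5 / δ) := by
    intro j
    induction j with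
    | zero => rw [hQ0]; simp
    | succ j ih =>
      obtain ⟨c1, c2⟩ := hblock j
      rw [range_eq_Ico, ← sum_Ico_consecutive _ (Nat.zero_le _) c1, ← range_eq_Ico]
      refine (norm_add_le _ _).trans ?_
      push_cast
      linarith
  set M : ℕ := ⌊h * lam * L⌋₊ + 2 with hM
  have hhl : 0 ≤ h * lam * L := by positivity
  have hM1 : h * lam * L < (⌊h * lam * L⌋₊ : ℝ) + 1 := Nat.lt_floor_add_one _
  have hM2 : (⌊h * lam * L⌋₊ : ℝ) ≤ h * lam * L := Nat.floor_le hhl
  have hQM : Q M = L := by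
    apply le_antisymm (P_le _ _ _)
    have h3 : dif x (L - 1) < ν₀ + (M : ℝ) - δ := by
      have h4 := gap_le h2 (L - 1) (by omega)
      have h5 : h * lam * ((L - 1 : ℕ) : ℝ) ≤ h * lam * L := by
        apply mul_le_mul_of_nonneg_left _ (by positivity)
        exact_mod_cast Nat.sub_le L 1
      rw [hM]
      push_cast
      linarith
    have h6 := (P_iff (mono hlam h1) _ (L - 1) (by omega)).1 h3
    show L ≤ P (dif x) L (ν₀ + (M : ℝ) - δ)
    omega
  have h7 := hind M
  rw [hQM] at h7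
  refine h7.trans ?_
  apply mul_le_mul_of_nonneg_right _ (by positivity)
  rw [hM]
  push_cast
  linarith

end

/-- a mean value theorem for differences -/
lemma mvt1 {f f' : ℝ → ℝ} {u v lo hi : ℝ} (huv : u ≤ v)
    (hf : ∀ t ∈ Set.Icc u v, HasDerivAt f (f' t) t)
    (hb : ∀ t ∈ Set.Icc u v, lo ≤ f' t ∧ f' t ≤ hi) :
    lo * (v - u) ≤ f v - f u ∧ f v - f u ≤ hi * (v - u) := by
  rcases huv.eq_or_lt with rfl | huv
  · simp
  obtain ⟨c, hc, h1⟩ := exists_hasDerivAt_eq_slope f f' huv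
    (fun t ht => (hf t ht).continuousAt.continuousWithinAt)
    (fun t ht => hf t (Set.Ioo_subset_Icc_self ht))
  have h2 := hb c (Set.Ioo_subset_Icc_self hc)
  have h3 : 0 < v - u := by linarith
  have h4 : f v - f u = f' c * (v - u) := by
    rw [h1]
    field_simp
  rw [h4]
  exact ⟨mul_le_mul_of_nonneg_right h2.1 h3.le, mul_le_mul_of_nonneg_right h2.2 h3.le⟩

theorem s_K2 : S_K2 := by
  intro h hh
  refine ⟨11 * h, by positivity, fun L lam a sg φ hlam hsg hder hb => ?_⟩
  have hs0 : 0 < √lam := Real.sqrt_pos.2 hlam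
  rw [← Real.sqrt_eq_rpow, show (1 : ℝ) - 1 = 0 by norm_num, Real.rpow_zero, one_mul,
    Real.rpow_neg hlam.le, ← Real.sqrt_eq_rpow]
  have hinv : 0 < (√lam)⁻¹ := inv_pos.2 hs0
  rcases le_or_gt lam (1 / 16) with hl | hl
  · -- the main case
    let x : ℕ → ℝ := fun n => sg * φ 0 (a + n)
    have hnorm : ‖∑ n ∈ range (L + 1), ex (φ 0 (a + n))‖ = ‖∑ n ∈ range (L + 1), e (x n)‖ := by
      rcases eq_or_eq_neg_of_abs_eq hsg with rfl | rfl
      · simp only [x, one_mul, ex_eq]
      · simp only [x, neg_mul, one_mul, ex_eq]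
        exact (norm_sum_neg _ _).symm
    have hsec : ∀ n, n + 1 < L →
        lam ≤ dif x (n + 1) - dif x n ∧ dif x (n + 1) - dif x n ≤ h * lam := by
      intro n hn
      have hnL : (n : ℝ) + 2 ≤ L := by exact_mod_cast (show n + 2 ≤ L from hn)
      have hn0 : (0 : ℝ) ≤ n := Nat.cast_nonneg n
      have h2 : ∀ t ∈ Set.Icc (a + n) (a + n + 1),
          lam ≤ sg * (φ 1 (t + 1) - φ 1 t) ∧ sg * (φ 1 (t + 1) - φ 1 t) ≤ h * lam := by
        intro t ht
        have h3 := mvt1 (f := fun s => sg * φ 1 s) (f' := fun s => sg * φ 2 s) (u := t) (v := t + 1)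
          (lo := lam) (hi := h * lam) (by linarith)
          (fun s hs => (hder 1 (by norm_num) s
            ⟨by linarith [ht.1, hs.1], by linarith [ht.2, hs.2]⟩).const_mul sg)
          (fun s hs => hb s ⟨by linarith [ht.1, hs.1], by linarith [ht.2, hs.2]⟩)
        have e1 : sg * φ 1 (t + 1) - sg * φ 1 t = sg * (φ 1 (t + 1) - φ 1 t) := by ring
        have h4 : lam * (t + 1 - t) = lam := by ring
        have h5 : h * lam * (t + 1 - t) = h * lam := by ring
        simp only [e1, h4, h5] at h3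
        exact h3
      have h3 := mvt1 (f := fun t => sg * (φ 0 (t + 1) - φ 0 t))
        (f' := fun t => sg * (φ 1 (t + 1) - φ 1 t)) (u := a + n) (v := a + n + 1)
        (lo := lam) (hi := h * lam) (by linarith)
        (fun t ht => by
          have d1 := hder 0 (by norm_num) t ⟨by linarith [ht.1], by linarith [ht.2]⟩
          have d2 := hder 0 (by norm_num) (t + 1) ⟨by linarith [ht.1], by linarith [ht.2]⟩
          exact ((d2.comp_add_const t 1).sub d1).const_mul sg)
        h2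
      have e1 : dif x (n + 1) - dif x n =
          sg * (φ 0 (a + n + 1 + 1) - φ 0 (a + n + 1)) - sg * (φ 0 (a + n + 1) - φ 0 (a + n)) := by
        simp only [dif, x]
        push_cast
        rw [show a + ((n : ℝ) + 1 + 1) = a + n + 1 + 1 by ring,
          show a + ((n : ℝ) + 1) = a + n + 1 by ring]
        ring
      rw [e1]
      have h4 : lam * (a + n + 1 - (a + n)) = lam := by ring
      have h5 : h * lam * (a + n + 1 - (a + n)) = h * lam := by ring
      simp only [h4, h5] at h3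
      exact h3
    have h6 := disc (x := x) (L := L) hlam hl hh (fun n hn => (hsec n hn).1)
      (fun n hn => (hsec n hn).2)
    rw [hnorm, sum_range_succ]
    refine (norm_add_le _ _).trans ?_
    rw [norm_e]
    have h7 : (h * lam * L + 2) * (5 / √lam) = 5 * h * (L * √lam) + 10 * (√lam)⁻¹ := by
      have : lam = √lam * √lam := (Real.mul_self_sqrt hlam.le).symm
      field_simp
      rw [Real.sq_sqrt hlam.le]
      ring
    rw [h7] at h6
    have h8 : (1 : ℝ) ≤ (√lam)⁻¹ := by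
      rw [le_inv_comm₀ one_pos hs0, inv_one]
      exact Real.sqrt_le_one.2 (by linarith)
    have h9 : (0 : ℝ) ≤ L * √lam := by positivity
    have h10 : 5 * h * (L * √lam) ≤ 11 * h * ((L + 1) * √lam) := by
      have : L * √lam ≤ (L + 1) * √lam := by nlinarith
      have h11 : 0 ≤ (L + 1) * √lam := by positivity
      nlinarith
    have h12 : 11 * (√lam)⁻¹ ≤ 11 * h * (√lam)⁻¹ := by nlinarith
    calc _ ≤ (5 * h * (L * √lam) + 10 * (√lam)⁻¹) + 1 := by linarith
      _ ≤ 11 * h * ((L + 1) * √lam) + 11 * h * (√lam)⁻¹ := by linarith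
      _ = _ := by ring
  · -- the trivial case
    have h1 : ‖∑ n ∈ range (L + 1), ex (φ 0 (a + n))‖ ≤ (L : ℝ) + 1 := by
      refine (norm_sum_le _ _).trans ?_
      simp only [ex_eq, norm_e, sum_const, card_range, nsmul_eq_mul, mul_one]
      push_cast
      exact le_rfl
    have h2 : 1 / 4 ≤ √lam := by
      rw [show (1 : ℝ) / 4 = √(1 / 16) by
        rw [show (1 : ℝ) / 16 = (1 / 4) ^ 2 by norm_num, Real.sqrt_sq (by norm_num)]]
      exact Real.sqrt_le_sqrt hl.le
    have h3 : (0 : ℝ) < (L : ℝ) + 1 := by positivity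
    have h4 : (L : ℝ) + 1 ≤ 4 * ((L + 1) * √lam) := by nlinarith
    have h5 : 0 ≤ ((L : ℝ) + 1) * √lam := by positivity
    have h6 : 4 * (((L : ℝ) + 1) * √lam) ≤ 11 * h * (((L : ℝ) + 1) * √lam) := by nlinarith
    have h7 : 0 ≤ 11 * h * (√lam)⁻¹ := by positivity
    calc _ ≤ 11 * h * (((L : ℝ) + 1) * √lam) + 11 * h * (√lam)⁻¹ := by linarith
      _ = _ := by ring

end Pool.Agent.L7h23.CM27
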